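import Pool.Agent.Helper92.GB.Theta
import Mathlib.NumberTheory.LSeries.Nonvanishing
import Mathlib.NumberTheory.DiophantineApproximation.Basic

/-!
# MP_b6b996_nt, ZerosAndPairs: the inequality for the exponents

From the implications between the bounds `(A_a)`, `(C_c)` and `(B_{s,t})` (hypothesis `res`) to
`Θ ≤ θ ≤ min (h Θ) (g Θ γ)`, where `Θ`, `γ` are the least exponents with `(A_Θ)`, `(C_γ)` and `θ` is the exponent of the question.
-/

set_option autoImplicit false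

namespace Pool.Agent.Helper5.ZP

open Finset

noncomputable def F (N : ℕ) (x : ℝ) : ℂ :=
  ∑ n ∈ Icc 1 N, (ArithmeticFunction.moebius n : ℂ) * Complex.exp (2 * Real.pi * Complex.I * n * x)

def ZeroFree (a : ℝ) : Prop :=
  ∀ (q : ℕ) [NeZero q] (χ : DirichletCharacter ℂ q) (s : ℂ), a < s.re → s ≠ 1 →
    DirichletCharacter.LFunction χ s ≠ 0

def PairBound (c : ℝ) : Prop :=
  ∀ ε : ℝ, 0 < ε → ∃ C : ℝ, ∀ N M k : ℕ, M ≤ N → 1 ≤ k → k ≤ N →
    |((∑ n ∈ Icc 1 M, ArithmeticFunction.moebius n * ArithmeticFunction.moebius (n + k) : ℤ) : ℝ)| ≤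
      C * (N : ℝ) ^ (c + ε)

def Bound (s t : ℝ) : Prop :=
  ∀ ε : ℝ, 0 < ε → ∃ C : ℝ, ∀ (N : ℕ) (x : ℝ) (b : ℤ) (q : ℕ), 1 ≤ N → 1 ≤ q → IsCoprime b (q : ℤ) →
    |x - b / q| ≤ 1 / (q : ℝ) ^ 2 →
      ‖F N x‖ ≤ C * (N : ℝ) ^ ε *
        min (min (N / Real.sqrt q + (N : ℝ) ^ (43 / 54 : ℝ)) ((N : ℝ) ^ s) + Real.sqrt (q * N)) ((N : ℝ) ^ t)

noncomputable def h (a : ℝ) : ℝ := max a (min ((13 + 4 * a) / 20) (43 / 54))

noncomputable def g (a c : ℝ) : ℝ :=
  min ((1 + c) / 2) (max ((1 + 3 * c) / (2 + 3 * c)) (max ((a + (1 + 4 * c) / (2 + 3 * c)) / 2) ((1 + 2 * a) / 3)))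

/-- The least `a ≥ 1/2` such that no Dirichlet L-function has a zero with real part `> a`. -/
noncomputable def Theta : ℝ := sInf {a : ℝ | 1 / 2 ≤ a ∧ ZeroFree a}

/-- The least exponent `c ≥ 1/2` of the two point correlations. -/
noncomputable def gamma : ℝ := sInf {c : ℝ | 1 / 2 ≤ c ∧ PairBound c}

/-- The growth exponent of the question. -/
noncomputable def theta : ℝ :=
  sInf {a : ℝ | 0 ≤ a ∧ ∃ C : ℝ, ∀ N : ℕ, 1 ≤ N → ∀ x ∈ Set.Icc (0 : ℝ) 1, ‖F N x‖ ≤ C * (N : ℝ) ^ a}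

theorem zeroFree_mono {a b : ℝ} (hab : a ≤ b) (ha : ZeroFree a) : ZeroFree b :=
  fun q _ χ s hs h1 => ha q χ s (lt_of_le_of_lt hab hs) h1

theorem zeroFree_one : ZeroFree 1 := by
  intro q _ χ s hs h1
  exact DirichletCharacter.LFunction_ne_zero_of_one_le_re χ (Or.inr h1) hs.le

theorem pairBound_one : PairBound 1 := by
  intro ε hε
  refine ⟨1, fun N M k hM hk hkN => ?_⟩
  rcases Nat.eq_zero_or_pos N with hN | hN
  · omega
  have hN1 : (1 : ℝ) ≤ N := by exact_mod_cast hN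
  have h1 : |((∑ n ∈ Icc 1 M, ArithmeticFunction.moebius n * ArithmeticFunction.moebius (n + k) : ℤ) : ℝ)| ≤ M := by
    push_cast
    refine (Finset.abs_sum_le_sum_abs _ _).trans ?_
    calc ∑ n ∈ Icc 1 M, |((ArithmeticFunction.moebius n : ℤ) : ℝ) * ((ArithmeticFunction.moebius (n + k) : ℤ) : ℝ)|
        ≤ ∑ n ∈ Icc 1 M, (1 : ℝ) := by
          refine Finset.sum_le_sum fun n _ => ?_
          rw [abs_mul]
          have h2 : |((ArithmeticFunction.moebius n : ℤ) : ℝ)| ≤ 1 := by exact_mod_cast ArithmeticFunction.abs_moebius_le_one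
          have h3 : |((ArithmeticFunction.moebius (n + k) : ℤ) : ℝ)| ≤ 1 := by
            exact_mod_cast ArithmeticFunction.abs_moebius_le_one
          exact mul_le_one₀ h2 (abs_nonneg _) h3
      _ = M := by simp
  have h2 : (M : ℝ) ≤ N := by exact_mod_cast hM
  have h3 : (N : ℝ) ≤ (N : ℝ) ^ (1 + ε) := by
    calc (N : ℝ) = (N : ℝ) ^ (1 : ℝ) := (Real.rpow_one _).symm
      _ ≤ _ := Real.rpow_le_rpow_of_exponent_le hN1 (by linarith)
  linarith

theorem Theta_mem : 1 / 2 ≤ Theta ∧ Theta ≤ 1 ∧ ZeroFree Theta := by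
  have hne : {a : ℝ | 1 / 2 ≤ a ∧ ZeroFree a}.Nonempty := ⟨1, by norm_num, zeroFree_one⟩
  have hbd : BddBelow {a : ℝ | 1 / 2 ≤ a ∧ ZeroFree a} := ⟨1 / 2, fun a ha => ha.1⟩
  refine ⟨le_csInf hne fun a ha => ha.1, csInf_le hbd ⟨by norm_num, zeroFree_one⟩, ?_⟩
  intro q _ χ s hs h1
  obtain ⟨a, ha, has⟩ := exists_lt_of_csInf_lt hne hs
  exact ha.2 q χ s has h1

theorem gamma_mem : 1 / 2 ≤ gamma ∧ gamma ≤ 1 ∧ PairBound gamma := by
  have hne : {c : ℝ | 1 / 2 ≤ c ∧ PairBound c}.Nonempty := ⟨1, by norm_num, pairBound_one⟩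
  have hbd : BddBelow {c : ℝ | 1 / 2 ≤ c ∧ PairBound c} := ⟨1 / 2, fun a ha => ha.1⟩
  refine ⟨le_csInf hne fun a ha => ha.1, csInf_le hbd ⟨by norm_num, pairBound_one⟩, ?_⟩
  intro ε hε
  obtain ⟨c, ⟨-, hc⟩, hcs⟩ := exists_lt_of_csInf_lt hne (show sInf {c : ℝ | 1 / 2 ≤ c ∧ PairBound c} < gamma + ε / 2 by
    show gamma < gamma + ε / 2
    linarith)
  obtain ⟨C, hC⟩ := hc (ε / 2) (by positivity)
  refine ⟨|C|, fun N M k hM hk hkN => (hC N M k hM hk hkN).trans ?_⟩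
  have hN1 : (1 : ℝ) ≤ N := by exact_mod_cast (hk.trans hkN)
  calc C * (N : ℝ) ^ (c + ε / 2) ≤ |C| * (N : ℝ) ^ (c + ε / 2) :=
        mul_le_mul_of_nonneg_right (le_abs_self C) (by positivity)
    _ ≤ |C| * (N : ℝ) ^ (gamma + ε) :=
        mul_le_mul_of_nonneg_left (Real.rpow_le_rpow_of_exponent_le hN1 (by linarith)) (abs_nonneg _)

theorem norm_F_le (N : ℕ) (x : ℝ) : ‖F N x‖ ≤ N := by
  unfold F
  refine (norm_sum_le _ _).trans ?_
  calc ∑ n ∈ Icc 1 N, ‖(ArithmeticFunction.moebius n : ℂ) * Complex.exp (2 * Real.pi * Complex.I * n * x)‖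
      ≤ ∑ n ∈ Icc 1 N, (1 : ℝ) := by
        refine Finset.sum_le_sum fun n _ => ?_
        rw [norm_mul]
        have h1 : ‖Complex.exp (2 * Real.pi * Complex.I * n * x)‖ = 1 := by
          rw [show (2 * Real.pi * Complex.I * n * x : ℂ) = ((2 * Real.pi * n * x : ℝ) : ℂ) * Complex.I by push_cast; ring]
          exact Complex.norm_exp_ofReal_mul_I _
        rw [h1, mul_one]
        have h2 : ‖((ArithmeticFunction.moebius n : ℤ) : ℂ)‖ = |((ArithmeticFunction.moebius n : ℤ) : ℝ)| :=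
          Complex.norm_intCast _
        rw [h2]
        exact_mod_cast ArithmeticFunction.abs_moebius_le_one
    _ = N := by simp

theorem theta_set : (1 : ℝ) ∈ {a : ℝ | 0 ≤ a ∧ ∃ C : ℝ, ∀ N : ℕ, 1 ≤ N → ∀ x ∈ Set.Icc (0 : ℝ) 1, ‖F N x‖ ≤ C * (N : ℝ) ^ a} :=
  ⟨zero_le_one, 1, fun N _ x _ => by rw [Real.rpow_one, one_mul]; exact norm_F_le N x⟩

/-- `F` has the period `1`. -/
theorem F_fract (N : ℕ) (x : ℝ) : F N x = F N (Int.fract x) := by
  unfold F
  refine Finset.sum_congr rfl fun n _ => ?_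
  congr 1
  have e1 : (2 * Real.pi * Complex.I * n * x : ℂ) = 2 * Real.pi * Complex.I * n * ((Int.fract x : ℝ) : ℂ) +
      ((n * ⌊x⌋ : ℤ) : ℂ) * (2 * Real.pi * Complex.I) := by
    have h1 : (x : ℂ) = ((Int.fract x : ℝ) : ℂ) + ((⌊x⌋ : ℤ) : ℂ) := by
      have h2 : (x : ℝ) = Int.fract x + (⌊x⌋ : ℝ) := (Int.fract_add_floor x).symm
      exact_mod_cast congrArg (fun y : ℝ => (y : ℂ)) h2
    rw [h1]
    push_cast
    ring
  rw [e1, Complex.exp_add, Complex.exp_int_mul_two_pi_mul_I, mul_one]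

theorem F_all {N : ℕ} {b : ℝ} (h : ∀ x ∈ Set.Icc (0 : ℝ) 1, ‖F N x‖ ≤ b) (x : ℝ) : ‖F N x‖ ≤ b := by
  rw [F_fract]
  exact h _ ⟨Int.fract_nonneg x, (Int.fract_lt_one x).le⟩

theorem theta_le_of {a : ℝ} (ha : 0 ≤ a) (hb : ∀ ε : ℝ, 0 < ε → ∃ C : ℝ, ∀ (N : ℕ) (x : ℝ), 1 ≤ N →
    ‖F N x‖ ≤ C * (N : ℝ) ^ (a + ε)) : theta ≤ a := by
  refine le_of_forall_pos_le_add fun ε hε => ?_
  obtain ⟨C, hC⟩ := hb ε hε
  exact csInf_le ⟨0, fun a ha => ha.1⟩ ⟨by linarith, C, fun N hN x _ => hC N x hN⟩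

theorem F_eq (N : ℕ) (x : ℝ) : F N x = Helper92.GB.F (fun n => ArithmeticFunction.moebius n) N x := by
  unfold F Helper92.GB.F Helper92.GB.e
  refine Finset.sum_congr rfl fun n _ => ?_
  congr 2
  push_cast
  ring

theorem half_le_theta : 1 / 2 ≤ theta := by
  have h1 : 1 / 2 ≤ Helper92.GB.theta (fun n => ArithmeticFunction.moebius n) :=
    Helper92.GB.half_le_theta _ (fun n => rfl) ⟨1, zero_le_one, 1, fun N _ x _ => by
      rw [Real.rpow_one, one_mul, ← F_eq]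
      exact norm_F_le N x⟩
  refine h1.trans (le_csInf ⟨1, theta_set⟩ ?_)
  rintro a ⟨ha, C, hC⟩
  exact csInf_le ⟨0, fun a ha => ha.1⟩ ⟨ha, C, fun N hN x hx => by
    rw [← F_eq]
    exact hC N hN x hx⟩

theorem h_one : h 1 = 1 := by
  unfold h
  norm_num

theorem g_one : g 1 1 = 1 := by
  unfold g
  norm_num

theorem three_le_h {a : ℝ} (ha : 1 / 2 ≤ a) : 3 / 4 ≤ h a :=
  le_max_of_le_right (le_min (by linarith) (by norm_num))

theorem g_nonneg {a c : ℝ} (ha : 1 / 2 ≤ a) (hc : 1 / 2 ≤ c) : 0 ≤ g a c :=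
  le_min (by linarith) (le_max_of_le_left (by positivity))

/-- **The exponents.** -/
theorem exponents (res : ∀ a c : ℝ, 1 / 2 ≤ a → a ≤ 1 → 1 / 2 ≤ c → c ≤ 1 →
    (ZeroFree a → PairBound c → Bound (h a) (g a c)) ∧ (Bound a c → ZeroFree (min a c))) :
    Theta ≤ theta ∧ theta ≤ min (h Theta) (g Theta gamma) := by
  obtain ⟨hT1, hT2, hT3⟩ := Theta_mem
  obtain ⟨hg1, hg2, hg3⟩ := gamma_mem
  constructor
  · -- `Theta ≤ theta`
    rcases le_or_gt 1 theta with h1 | h1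
    · exact hT2.trans h1
    · refine le_of_forall_gt_imp_ge_of_dense fun t ht => ?_
      rcases le_or_gt 1 t with h2 | h2
      · exact hT2.trans h2
      obtain ⟨a, ⟨ha0, C, hC⟩, hat⟩ := exists_lt_of_csInf_lt ⟨1, theta_set⟩ ht
      have ht2 : 1 / 2 ≤ t := half_le_theta.trans ht.le
      have hB1 : Bound 1 1 := by
        have := (res 1 1 (by norm_num) le_rfl (by norm_num) le_rfl).1 zeroFree_one pairBound_one
        rwa [h_one, g_one] at this
      have hB : Bound 1 t := by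
        intro ε hε
        obtain ⟨C', hC'⟩ := hB1 ε hε
        refine ⟨max |C| |C'|, fun N x b q hN hq hb hx => ?_⟩
        have hN1 : (1 : ℝ) ≤ N := by exact_mod_cast hN
        have e1 := hC' N x b q hN hq hb hx
        have e2 := F_all (hC N hN) x
        obtain ⟨W, hW⟩ : ∃ W : ℝ, W = min (N / Real.sqrt q + (N : ℝ) ^ (43 / 54 : ℝ)) ((N : ℝ) ^ (1 : ℝ)) + Real.sqrt (q * N) :=
          ⟨_, rfl⟩
        rw [← hW] at e1 ⊢
        have hW0 : 0 ≤ W := by rw [hW]; positivity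
        have hM : 0 ≤ max |C| |C'| := le_max_of_le_left (abs_nonneg _)
        have hNe : 1 ≤ (N : ℝ) ^ ε := Real.one_le_rpow hN1 hε.le
        rw [mul_min_of_nonneg _ _ (by positivity)]
        refine le_min ?_ ?_
        · refine e1.trans ?_
          calc C' * (N : ℝ) ^ ε * min W ((N : ℝ) ^ (1 : ℝ)) ≤ |C'| * (N : ℝ) ^ ε * min W ((N : ℝ) ^ (1 : ℝ)) := by
                have : 0 ≤ min W ((N : ℝ) ^ (1 : ℝ)) := le_min hW0 (by positivity)
                gcongr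
                exact le_abs_self _
            _ ≤ max |C| |C'| * (N : ℝ) ^ ε * W := by
                gcongr
                · exact le_max_right _ _
                · exact min_le_left _ _
        · refine e2.trans ?_
          calc C * (N : ℝ) ^ a ≤ |C| * (N : ℝ) ^ a := mul_le_mul_of_nonneg_right (le_abs_self _) (by positivity)
            _ ≤ max |C| |C'| * 1 * (N : ℝ) ^ t := by
                rw [mul_one]
                exact mul_le_mul (le_max_left _ _) (Real.rpow_le_rpow_of_exponent_le hN1 hat.le) (by positivity) hM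
            _ ≤ max |C| |C'| * (N : ℝ) ^ ε * (N : ℝ) ^ t := by gcongr
      have h3 := (res 1 t (by norm_num) le_rfl ht2 h2.le).2 hB
      rw [min_eq_right h2.le] at h3
      exact csInf_le ⟨1 / 2, fun a ha => ha.1⟩ ⟨ht2, h3⟩
  · have hB := (res Theta gamma hT1 hT2 hg1 hg2).1 hT3 hg3
    refine le_min ?_ ?_
    · refine theta_le_of (by linarith [three_le_h hT1]) fun ε hε => ?_
      obtain ⟨C, hC⟩ := hB ε hε
      refine ⟨2 * |C|, fun N x hN => ?_⟩
      have hN1 : (1 : ℝ) ≤ N := by exact_mod_cast hN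
      have hN0 : (0 : ℝ) < N := by linarith
      -- Dirichlet's approximation
      have hs : 0 < Nat.sqrt N := Nat.sqrt_pos.2 hN
      obtain ⟨ρ, hρ1, hρ2⟩ := Real.exists_rat_abs_sub_le_and_den_le x hs
      have hden : 0 < ρ.den := ρ.den_pos
      have hdenR : (0 : ℝ) < ρ.den := by exact_mod_cast hden
      have hcop : IsCoprime ρ.num (ρ.den : ℤ) := by
        rw [Int.isCoprime_iff_gcd_eq_one]
        exact ρ.reduced
      have hx : |x - ρ.num / ρ.den| ≤ 1 / (ρ.den : ℝ) ^ 2 := by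
        have e1 : (ρ : ℝ) = ρ.num / ρ.den := Rat.cast_def ρ
        rw [e1] at hρ1
        refine hρ1.trans ?_
        have h5 : (ρ.den : ℝ) ≤ (Nat.sqrt N : ℝ) + 1 := by
          have : (ρ.den : ℝ) ≤ (Nat.sqrt N : ℝ) := by exact_mod_cast hρ2
          linarith
        refine one_div_le_one_div_of_le (by positivity) ?_
        rw [sq]
        exact mul_le_mul_of_nonneg_right h5 hdenR.le
      have e1 := hC N x ρ.num ρ.den hN hden hcop hx
      have hsq : Real.sqrt (ρ.den * N) ≤ (N : ℝ) ^ h Theta := by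
        have h5 : (ρ.den : ℝ) ≤ Real.sqrt N := by
          refine Real.le_sqrt_of_sq_le ?_
          have h6 : ρ.den * ρ.den ≤ N := (Nat.mul_le_mul hρ2 hρ2).trans (Nat.sqrt_le N)
          rw [sq]
          exact_mod_cast h6
        have h6 : (ρ.den : ℝ) * N ≤ ((N : ℝ) ^ (3 / 4 : ℝ)) ^ 2 := by
          have h7 : ((N : ℝ) ^ (3 / 4 : ℝ)) ^ 2 = Real.sqrt N * N := by
            rw [Real.sqrt_eq_rpow, ← Real.rpow_natCast, ← Real.rpow_mul hN0.le]
            nth_rewrite 3 [← Real.rpow_one (N : ℝ)]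
            rw [← Real.rpow_add hN0]
            norm_num
          rw [h7]
          exact mul_le_mul_of_nonneg_right h5 hN0.le
        calc Real.sqrt (ρ.den * N) ≤ Real.sqrt (((N : ℝ) ^ (3 / 4 : ℝ)) ^ 2) := Real.sqrt_le_sqrt h6
          _ = (N : ℝ) ^ (3 / 4 : ℝ) := Real.sqrt_sq (by positivity)
          _ ≤ _ := Real.rpow_le_rpow_of_exponent_le hN1 (three_le_h hT1)
      obtain ⟨V, hV⟩ : ∃ V : ℝ, V = N / Real.sqrt ρ.den + (N : ℝ) ^ (43 / 54 : ℝ) := ⟨_, rfl⟩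
      rw [← hV] at e1
      have hV0 : 0 ≤ V := by rw [hV]; positivity
      have h8 : min (min V ((N : ℝ) ^ h Theta) + Real.sqrt (ρ.den * N)) ((N : ℝ) ^ g Theta gamma) ≤ 2 * (N : ℝ) ^ h Theta := by
        refine (min_le_left _ _).trans ?_
        have := min_le_right V ((N : ℝ) ^ h Theta)
        linarith
      have h9 : 0 ≤ min (min V ((N : ℝ) ^ h Theta) + Real.sqrt (ρ.den * N)) ((N : ℝ) ^ g Theta gamma) := by positivity
      refine e1.trans ?_
      rw [Real.rpow_add hN0]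
      calc C * (N : ℝ) ^ ε * min (min V ((N : ℝ) ^ h Theta) + Real.sqrt (ρ.den * N)) ((N : ℝ) ^ g Theta gamma)
          ≤ |C| * (N : ℝ) ^ ε * (2 * (N : ℝ) ^ h Theta) := by
            refine mul_le_mul ?_ h8 h9 (by positivity)
            exact mul_le_mul_of_nonneg_right (le_abs_self _) (by positivity)
        _ = 2 * |C| * ((N : ℝ) ^ h Theta * (N : ℝ) ^ ε) := by ring
    · refine theta_le_of (g_nonneg hT1 hg1) fun ε hε => ?_
      obtain ⟨C, hC⟩ := hB ε hε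
      refine ⟨|C|, fun N x hN => ?_⟩
      have hN1 : (1 : ℝ) ≤ N := by exact_mod_cast hN
      have hN0 : (0 : ℝ) < N := by linarith
      have e1 := hC N x ⌊x⌋ 1 hN le_rfl (by simpa using isCoprime_one_right) (by
        rw [Nat.cast_one, div_one, one_pow, div_one, Int.self_sub_floor, abs_of_nonneg (Int.fract_nonneg x)]
        exact (Int.fract_lt_one x).le)
      obtain ⟨W, hW⟩ : ∃ W : ℝ, W = min (N / Real.sqrt (1 : ℕ) + (N : ℝ) ^ (43 / 54 : ℝ)) ((N : ℝ) ^ h Theta) +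
        Real.sqrt ((1 : ℕ) * N) := ⟨_, rfl⟩
      rw [← hW] at e1
      have hW0 : 0 ≤ W := by rw [hW]; positivity
      have h9 : 0 ≤ min W ((N : ℝ) ^ g Theta gamma) := le_min hW0 (by positivity)
      refine e1.trans ?_
      rw [Real.rpow_add hN0]
      calc C * (N : ℝ) ^ ε * min W ((N : ℝ) ^ g Theta gamma) ≤ |C| * (N : ℝ) ^ ε * (N : ℝ) ^ g Theta gamma := by
            refine mul_le_mul ?_ (min_le_right _ _) h9 (by positivity)
            exact mul_le_mul_of_nonneg_right (le_abs_self _) (by positivity)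
        _ = |C| * ((N : ℝ) ^ g Theta gamma * (N : ℝ) ^ ε) := by ring

end Pool.Agent.Helper5.ZP
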